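import Mathlib

/-!
# A checker for the spectral radius of an explicit rational matrix

`N` is a sparse integer matrix (a list of rows, a row being a list of pairs (column, entry)), `S > 0`
an integer and `ms` a list of integers of absolute value less than `S`.  If the matrix
`P = ∏ (N - m)` has all its row sums (of absolute values) less than `∏ (S - |m|)`, then every
eigenvalue of `N` has modulus less than `S`.
-/

namespace Pool.Agent.Q186.RS

/-- entry `k` of a list -/
def nth : List ℤ → ℕ → ℤ
  | [], _ => 0
  | a :: _, 0 => a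
  | _ :: l, k + 1 => nth l k

/-- row `k` of a dense matrix -/
def nthL : List (List ℤ) → ℕ → List ℤ
  | [], _ => []
  | a :: _, 0 => a
  | _ :: l, k + 1 => nthL l k

/-- row `i` of a sparse matrix -/
def row : List (List (ℕ × ℤ)) → ℕ → List (ℕ × ℤ)
  | [], _ => []
  | r :: _, 0 => r
  | _ :: N, k + 1 => row N k

/-- entry `j` of a sparse row -/
def ent : List (ℕ × ℤ) → ℕ → ℤ
  | [], _ => 0
  | p :: r, j => (if p.1 = j then p.2 else 0) + ent r j

/-- `a x + y` -/
def axpy (a : ℤ) : List ℤ → List ℤ → List ℤ
  | [], _ => []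
  | _ :: _, [] => []
  | x :: xs, y :: ys => Int.add (Int.mul a x) y :: axpy a xs ys

/-- `a x` -/
def scale (a : ℤ) : List ℤ → List ℤ
  | [] => []
  | x :: xs => Int.mul a x :: scale a xs

/-- a combination of the rows of `P`, added to `acc` -/
def comb (P : List (List ℤ)) : List (ℕ × ℤ) → List ℤ → List ℤ
  | [], acc => acc
  | p :: r, acc => comb P r (axpy p.2 (nthL P p.1) acc)

/-- the rows of `(N - m) P`, the rows of `N` paired with the rows of `Q` -/
def step (m : ℤ) (P : List (List ℤ)) : List (List (ℕ × ℤ)) → List (List ℤ) → List (List ℤ)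
  | [], _ => []
  | _ :: _, [] => []
  | r :: N, q :: Q => comb P r (scale (Int.neg m) q) :: step m P N Q

/-- evaluate a natural number -/
def forceNat {α : Type} (n : ℕ) (k : ℕ → α) : α :=
  match n with
  | 0 => k 0
  | m + 1 => k (m + 1)

/-- evaluate an integer -/
def forceInt {α : Type} (a : ℤ) (k : ℤ → α) : α :=
  match a with
  | Int.ofNat n => forceNat n fun n' => k (Int.ofNat n')
  | Int.negSucc n => forceNat n fun n' => k (Int.negSucc n')

/-- evaluate a list -/
def forceRow {α : Type} : List ℤ → (List ℤ → α) → α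
  | [], k => k []
  | a :: l, k => forceInt a fun a' => forceRow l fun l' => k (a' :: l')

/-- evaluate a matrix -/
def forceMat {α : Type} : List (List ℤ) → (List (List ℤ) → α) → α
  | [], k => k []
  | a :: l, k => forceRow a fun a' => forceMat l fun l' => k (a' :: l')

lemma forceNat_eq {α : Type} (n : ℕ) (k : ℕ → α) : forceNat n k = k n := by
  cases n <;> rfl

lemma forceInt_eq {α : Type} (a : ℤ) (k : ℤ → α) : forceInt a k = k a := by
  cases a with
  | ofNat n => cases n <;> rfl
  | negSucc n => cases n <;> rfl

lemma forceRow_eq {α : Type} (l : List ℤ) (k : List ℤ → α) : forceRow l k = k l := by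
  induction l generalizing k with
  | nil => rfl
  | cons a l ih => simp only [forceRow, forceInt_eq, ih]

lemma forceMat_eq {α : Type} (l : List (List ℤ)) (k : List (List ℤ) → α) :
    forceMat l k = k l := by
  induction l generalizing k with
  | nil => rfl
  | cons a l ih => simp only [forceMat, forceRow_eq, ih]

/-- apply all the factors, and then `k` -/
def run {α : Type} (N : List (List (ℕ × ℤ))) (k : List (List ℤ) → α) :
    List ℤ → List (List ℤ) → α
  | [], P => k P
  | m :: ms, P => forceMat (step m P N P) fun P' => run N k ms P'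

/-- the product of the factors, without evaluation -/
def prodL (N : List (List (ℕ × ℤ))) : List ℤ → List (List ℤ) → List (List ℤ)
  | [], P => P
  | m :: ms, P => prodL N ms (step m P N P)

lemma run_eq {α : Type} (N : List (List (ℕ × ℤ))) (k : List (List ℤ) → α) (ms : List ℤ)
    (P : List (List ℤ)) : run N k ms P = k (prodL N ms P) := by
  induction ms generalizing P with
  | nil => rfl
  | cons m ms ih => simp only [run, prodL, forceMat_eq, ih]

/-- sum of the absolute values -/
def absSum : List ℤ → ℕ
  | [] => 0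
  | a :: l => Nat.add (Int.natAbs a) (absSum l)

/-- the product of `S - |m|` -/
def bound (S : ℕ) : List ℤ → ℕ
  | [] => 1
  | m :: ms => (S - m.natAbs) * bound S ms

/-- the unit vector `e j` of length `n` -/
def unitVec : ℕ → ℕ → List ℤ
  | 0, _ => []
  | n + 1, 0 => 1 :: unitVec n (n + 1)
  | n + 1, j + 1 => 0 :: unitVec n j

/-- the identity matrix, rows `i` to `n - 1` -/
def idMat (n : ℕ) : List (List ℤ) := (List.range n).map (unitVec n)

/-- the matrix of a sparse list -/
def toMat (n : ℕ) (N : List (List (ℕ × ℤ))) : Matrix (Fin n) (Fin n) ℤ :=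
  fun i j => ent (row N i) j

/-- the matrix of a dense list -/
def denseMat (n : ℕ) (P : List (List ℤ)) : Matrix (Fin n) (Fin n) ℤ :=
  fun i j => nth (nthL P i) j

/-- all column indices are less than `n` -/
def idxOk (n : ℕ) : List (ℕ × ℤ) → Bool
  | [] => true
  | p :: r => decide (p.1 < n) && idxOk n r

lemma ent_sum (n : ℕ) (r : List (ℕ × ℤ)) (h : idxOk n r = true) (f : ℕ → ℤ) :
    ∑ j : Fin n, ent r j * f j = (r.map fun p => p.2 * f p.1).sum := by
  induction r with
  | nil => simp [ent]
  | cons p r ih =>
    simp only [idxOk, Bool.and_eq_true, decide_eq_true_eq] at h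
    simp only [ent, add_mul, Finset.sum_add_distrib, List.map_cons, List.sum_cons]
    rw [ih h.2]
    congr 1
    rw [Finset.sum_eq_single (⟨p.1, h.1⟩ : Fin n)]
    · simp
    · intro b _ hb
      have : p.1 ≠ (b : ℕ) := fun hh => hb (Fin.ext hh.symm)
      simp [this]
    · simp

lemma axpy_length (a : ℤ) (x y : List ℤ) (h : x.length = y.length) :
    (axpy a x y).length = y.length := by
  induction x generalizing y with
  | nil => cases y with
    | nil => rfl
    | cons b y => simp at h
  | cons b x ih => cases y with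
    | nil => simp at h
    | cons c y =>
      simp only [axpy, List.length_cons]
      rw [ih y (by simpa using h)]

lemma nth_axpy (a : ℤ) (x y : List ℤ) (h : x.length = y.length) (i : ℕ) :
    nth (axpy a x y) i = a * nth x i + nth y i := by
  induction x generalizing y i with
  | nil => cases y with
    | nil => simp [axpy, nth]
    | cons b y => simp at h
  | cons b x ih => cases y with
    | nil => simp at h
    | cons c y => cases i with
      | zero => rfl
      | succ i =>
        simp only [axpy, nth]
        exact ih y (by simpa using h) i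

lemma scale_length (a : ℤ) (x : List ℤ) : (scale a x).length = x.length := by
  induction x with
  | nil => rfl
  | cons b x ih => simp [scale, ih]

lemma nth_scale (a : ℤ) (x : List ℤ) (i : ℕ) : nth (scale a x) i = a * nth x i := by
  induction x generalizing i with
  | nil => simp [scale, nth]
  | cons b x ih => cases i with
    | zero => rfl
    | succ i => simpa [scale, nth] using ih i

lemma nthL_mem (P : List (List ℤ)) (i : ℕ) (hi : i < P.length) : nthL P i ∈ P := by
  induction P generalizing i with
  | nil => simp at hi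
  | cons r P ih => cases i with
    | zero => simp [nthL]
    | succ i =>
      simp only [nthL]
      exact List.mem_cons_of_mem _ (ih i (by simpa using hi))

lemma comb_spec (n : ℕ) (P : List (List ℤ)) (hP : P.length = n) (hP' : ∀ r ∈ P, r.length = n)
    (r : List (ℕ × ℤ)) (hr : idxOk n r = true) (acc : List ℤ) (hacc : acc.length = n) :
    (comb P r acc).length = n ∧
      ∀ i, nth (comb P r acc) i = (r.map fun p => p.2 * nth (nthL P p.1) i).sum + nth acc i := by
  induction r generalizing acc with
  | nil => simp [comb, hacc]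
  | cons p r ih =>
    simp only [idxOk, Bool.and_eq_true, decide_eq_true_eq] at hr
    have hl : (nthL P p.1).length = n := hP' _ (nthL_mem P p.1 (by omega))
    have hl2 : (axpy p.2 (nthL P p.1) acc).length = n := by
      rw [axpy_length _ _ _ (by omega), hacc]
    obtain ⟨h1, h2⟩ := ih hr.2 _ hl2
    refine ⟨h1, fun i => ?_⟩
    simp only [comb, List.map_cons, List.sum_cons]
    rw [h2 i, nth_axpy _ _ _ (by omega)]
    ring

lemma step_spec (n : ℕ) (m : ℤ) (P : List (List ℤ)) (hP : P.length = n)
    (hP' : ∀ r ∈ P, r.length = n) (N : List (List (ℕ × ℤ))) (hN : N.all (idxOk n) = true)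
    (Q : List (List ℤ)) (hQ : N.length = Q.length) (hQ' : ∀ r ∈ Q, r.length = n) :
    (step m P N Q).length = Q.length ∧ (∀ r ∈ step m P N Q, r.length = n) ∧
      ∀ i < Q.length, ∀ j, nth (nthL (step m P N Q) i) j =
        ((row N i).map fun p => p.2 * nth (nthL P p.1) j).sum - m * nth (nthL Q i) j := by
  induction N generalizing Q with
  | nil => cases Q with
    | nil => simp [step]
    | cons q Q => simp at hQ
  | cons r N ih => cases Q with
    | nil => simp at hQ
    | cons q Q =>
      simp only [List.all_cons, Bool.and_eq_true] at hN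
      obtain ⟨h1, h2, h3⟩ := ih hN.2 Q (by simpa using hQ)
        (fun r hr => hQ' r (List.mem_cons_of_mem _ hr))
      have hq : q.length = n := hQ' q List.mem_cons_self
      obtain ⟨h4, h5⟩ := comb_spec n P hP hP' r hN.1 (scale (Int.neg m) q)
        (by rw [scale_length, hq])
      refine ⟨by simp [step, h1], ?_, ?_⟩
      · intro s hs
        simp only [step, List.mem_cons] at hs
        rcases hs with rfl | hs
        · exact h4
        · exact h2 s hs
      · intro i hi j
        cases i with
        | zero =>
          simp only [step, nthL, row]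
          rw [h5 j, nth_scale]
          have : Int.neg m = -m := rfl
          rw [this]
          ring
        | succ i =>
          simp only [step, nthL, row]
          exact h3 i (by simpa using hi) j

/-- the product of the factors -/
def prodMat (n : ℕ) (M : Matrix (Fin n) (Fin n) ℤ) : List ℤ → Matrix (Fin n) (Fin n) ℤ
  | [] => 1
  | m :: ms => prodMat n M ms * (M - m • (1 : Matrix (Fin n) (Fin n) ℤ))

lemma idxOk_row (n : ℕ) (N : List (List (ℕ × ℤ))) (h : N.all (idxOk n) = true) (i : ℕ) :
    idxOk n (row N i) = true := by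
  induction N generalizing i with
  | nil => simp [row, idxOk]
  | cons r N ih =>
    simp only [List.all_cons, Bool.and_eq_true] at h
    cases i with
    | zero => simpa [row] using h.1
    | succ i => simpa [row] using ih h.2 i

lemma dense_step (n : ℕ) (m : ℤ) (P : List (List ℤ)) (hP : P.length = n)
    (hP' : ∀ r ∈ P, r.length = n) (N : List (List (ℕ × ℤ))) (hN : N.all (idxOk n) = true)
    (hNl : N.length = n) :
    denseMat n (step m P N P) =
      (toMat n N - m • (1 : Matrix (Fin n) (Fin n) ℤ)) * denseMat n P := by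
  obtain ⟨h1, h2, h3⟩ := step_spec n m P hP hP' N hN P (by omega) hP'
  ext i j
  rw [sub_mul, Matrix.sub_apply, smul_mul_assoc, one_mul, Matrix.smul_apply, Matrix.mul_apply]
  simp only [denseMat, toMat, smul_eq_mul]
  rw [h3 i (by omega) j, ← ent_sum n _ (idxOk_row n N hN i) fun k => nth (nthL P k) j]

lemma comm_prodMat (n : ℕ) (M : Matrix (Fin n) (Fin n) ℤ) (ms : List ℤ) :
    Commute M (prodMat n M ms) := by
  induction ms with
  | nil => exact Commute.one_right _
  | cons m ms ih =>
    refine ih.mul_right ((Commute.refl M).sub_right ?_)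
    exact (Commute.one_right M).smul_right m

lemma dense_prodL (n : ℕ) (N : List (List (ℕ × ℤ))) (hN : N.all (idxOk n) = true)
    (hNl : N.length = n) (ms : List ℤ) (P : List (List ℤ)) (hP : P.length = n)
    (hP' : ∀ r ∈ P, r.length = n) :
    denseMat n (prodL N ms P) = prodMat n (toMat n N) ms * denseMat n P ∧
      (prodL N ms P).length = n ∧ ∀ r ∈ prodL N ms P, r.length = n := by
  induction ms generalizing P with
  | nil => exact ⟨by simp [prodL, prodMat], hP, hP'⟩
  | cons m ms ih =>
    obtain ⟨h1, h2, _⟩ := step_spec n m P hP hP' N hN P (by omega) hP'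
    obtain ⟨h3, h4, h5⟩ := ih (step m P N P) (by omega) h2
    refine ⟨?_, h4, h5⟩
    simp only [prodL, prodMat]
    rw [h3, dense_step n m P hP hP' N hN hNl, Matrix.mul_assoc]

lemma unitVec_length (n j : ℕ) : (unitVec n j).length = n := by
  induction n generalizing j with
  | zero => simp [unitVec]
  | succ n ih => cases j with
    | zero => simp [unitVec, ih]
    | succ j => simp [unitVec, ih]

lemma nth_unitVec (n j i : ℕ) (hi : i < n) : nth (unitVec n j) i = if j = i then 1 else 0 := by
  induction n generalizing i j with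
  | zero => omega
  | succ n ih => cases j with
    | zero => cases i with
      | zero => simp [unitVec, nth]
      | succ i =>
        simp only [unitVec, nth]
        rw [ih (n + 1) i (by omega)]
        have : n + 1 ≠ i := by omega
        simp [this]
    | succ j => cases i with
      | zero => simp [unitVec, nth]
      | succ i =>
        simp only [unitVec, nth]
        rw [ih j i (by omega)]
        simp

lemma nthL_map_range (f : ℕ → List ℤ) (n i : ℕ) (hi : i < n) :
    nthL ((List.range n).map f) i = f i := by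
  induction n generalizing i f with
  | zero => omega
  | succ n ih =>
    rw [List.range_succ_eq_map, List.map_cons, List.map_map]
    cases i with
    | zero => rfl
    | succ i =>
      simp only [nthL]
      exact ih (f ∘ Nat.succ) i (by omega)

lemma dense_idMat (n : ℕ) : denseMat n (idMat n) = 1 := by
  ext i j
  simp only [denseMat, idMat]
  rw [nthL_map_range _ n i i.2, nth_unitVec n i j j.2, Matrix.one_apply]
  simp [Fin.ext_iff]

lemma absSum_eq (n : ℕ) (v : List ℤ) (hv : v.length = n) :
    absSum v = ∑ i : Fin n, (nth v i).natAbs := by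
  induction v generalizing n with
  | nil => subst hv; simp [absSum]
  | cons a v ih =>
    subst hv
    simp only [List.length_cons, absSum]
    rw [Fin.sum_univ_succ, ih v.length rfl]
    rfl

lemma prodMat_eig (n : ℕ) (M : Matrix (Fin n) (Fin n) ℤ) (x : Fin n → ℂ) (z : ℂ)
    (hx : (M.map (Int.cast : ℤ → ℂ)).mulVec x = z • x) (ms : List ℤ) :
    ((prodMat n M ms).map (Int.cast : ℤ → ℂ)).mulVec x =
      (ms.map fun m : ℤ => z - (m : ℂ)).prod • x := by
  induction ms with
  | nil =>
    simp only [prodMat, List.map_nil, List.prod_nil, one_smul]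
    have : ((1 : Matrix (Fin n) (Fin n) ℤ).map (Int.cast : ℤ → ℂ)) = 1 :=
      Matrix.map_one _ (by simp) (by simp)
    rw [this, Matrix.one_mulVec]
  | cons m ms ih =>
    simp only [prodMat, List.map_cons, List.prod_cons]
    have h1 : ((prodMat n M ms * (M - m • (1 : Matrix (Fin n) (Fin n) ℤ))).map
        (Int.cast : ℤ → ℂ)) = ((prodMat n M ms).map (Int.cast : ℤ → ℂ)) *
          ((M.map (Int.cast : ℤ → ℂ)) - (m : ℂ) • (1 : Matrix (Fin n) (Fin n) ℂ)) := by
      ext i j
      simp only [Matrix.map_apply, Matrix.mul_apply, Matrix.sub_apply, Matrix.smul_apply,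
        Matrix.one_apply]
      push_cast
      refine Finset.sum_congr rfl fun k _ => ?_
      by_cases hkj : k = j <;> simp [hkj]
    rw [h1, ← Matrix.mulVec_mulVec, Matrix.sub_mulVec, hx, Matrix.smul_mulVec, Matrix.one_mulVec,
      ← sub_smul, Matrix.mulVec_smul, ih, smul_smul]

lemma bound_le (S : ℕ) (ms : List ℤ) (hm : ∀ m ∈ ms, m.natAbs < S) (z : ℂ)
    (hz : (S : ℝ) ≤ ‖z‖) : (bound S ms : ℝ) ≤ ‖(ms.map fun m : ℤ => z - (m : ℂ)).prod‖ := by
  induction ms with
  | nil => simp [bound]
  | cons m ms ih =>
    simp only [bound, List.map_cons, List.prod_cons, norm_mul, Nat.cast_mul]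
    have h1 := ih fun k hk => hm k (List.mem_cons_of_mem _ hk)
    have h2 : m.natAbs < S := hm m List.mem_cons_self
    have h3 : ((S - m.natAbs : ℕ) : ℝ) ≤ ‖z - (m : ℂ)‖ := by
      rw [Nat.cast_sub h2.le]
      have h4 : ‖z‖ - ‖(m : ℂ)‖ ≤ ‖z - (m : ℂ)‖ := norm_sub_norm_le _ _
      have h5 : ‖(m : ℂ)‖ = (m.natAbs : ℝ) := by
        rw [Complex.norm_intCast, Nat.cast_natAbs, Int.cast_abs]
      linarith
    exact mul_le_mul h3 h1 (Nat.cast_nonneg _) (norm_nonneg _)

/-- all the rows of `P` have absolute sum less than `B` -/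
def rowsOk (B : ℕ) : List (List ℤ) → Bool
  | [] => true
  | r :: P => Nat.blt (absSum r) B && rowsOk B P

lemma rowsOk_mem (B : ℕ) (P : List (List ℤ)) (h : rowsOk B P = true) (r : List ℤ) (hr : r ∈ P) :
    absSum r < B := by
  induction P with
  | nil => simp at hr
  | cons q P ih =>
    simp only [rowsOk, Bool.and_eq_true, Nat.blt_eq] at h
    rcases List.mem_cons.1 hr with rfl | hr
    · exact h.1
    · exact ih h.2 hr

/-- The full check. -/
def check (n : ℕ) (N : List (List (ℕ × ℤ))) (S : ℕ) (ms : List ℤ) : Bool :=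
  (decide (N.length = n) && N.all (idxOk n) && ms.all (fun m => decide (m.natAbs < S))) &&
    forceNat (bound S ms) fun B => run N (rowsOk B) ms (idMat n)

theorem check_spec (n : ℕ) (N : List (List (ℕ × ℤ))) (S : ℕ) (ms : List ℤ)
    (hc : check n N S ms = true) (x : Fin n → ℂ) (hx0 : x ≠ 0) (z : ℂ)
    (hx : ((toMat n N).map (Int.cast : ℤ → ℂ)).mulVec x = z • x) : ‖z‖ < S := by
  rw [check, forceNat_eq, run_eq] at hc
  simp only [Bool.and_eq_true, decide_eq_true_eq] at hc
  obtain ⟨⟨⟨hN, hi⟩, hm⟩, hrow⟩ := hc
  simp only [List.all_eq_true, decide_eq_true_eq] at hm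
  by_contra hzS
  push Not at hzS
  have hb := bound_le S ms hm z hzS
  have hP := prodMat_eig n (toMat n N) x z hx ms
  have hid : ∀ r ∈ idMat n, r.length = n := by
    intro r hr
    simp only [idMat, List.mem_map] at hr
    obtain ⟨j, _, rfl⟩ := hr
    exact unitVec_length n j
  obtain ⟨hd1, hd2, hd3⟩ := dense_prodL n N hi hN ms (idMat n) (by simp [idMat]) hid
  rw [dense_idMat, mul_one] at hd1
  set P := prodMat n (toMat n N) ms with hPdef
  set c := (ms.map fun m : ℤ => z - (m : ℂ)).prod with hcdef
  have hrowR : ∀ i : Fin n, ∑ j : Fin n, ‖((P i j : ℤ) : ℂ)‖ < (bound S ms : ℝ) := by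
    intro i
    have hmem : nthL (prodL N ms (idMat n)) i ∈ prodL N ms (idMat n) := nthL_mem _ _ (by omega)
    have h1 := rowsOk_mem _ _ hrow _ hmem
    rw [absSum_eq n _ (hd3 _ hmem)] at h1
    have h2 : ∑ j : Fin n, ‖((P i j : ℤ) : ℂ)‖ =
        ((∑ j : Fin n, (nth (nthL (prodL N ms (idMat n)) i) j).natAbs : ℕ) : ℝ) := by
      push_cast
      refine Finset.sum_congr rfl fun j _ => ?_
      rw [Complex.norm_intCast, ← hd1, Nat.cast_natAbs, Int.cast_abs]
      rfl
    rw [h2]
    exact_mod_cast h1
  obtain ⟨j0, hj0⟩ : ∃ j, x j ≠ 0 := by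
    by_contra hno
    push Not at hno
    exact hx0 (funext hno)
  obtain ⟨i0, _, hi0⟩ := Finset.exists_max_image Finset.univ (fun i => ‖x i‖) ⟨j0, Finset.mem_univ _⟩
  have hpos : 0 < ‖x i0‖ := lt_of_lt_of_le (norm_pos_iff.2 hj0) (hi0 j0 (Finset.mem_univ _))
  have hsum : ‖c‖ * ‖x i0‖ ≤ (∑ j, ‖((P i0 j : ℤ) : ℂ)‖) * ‖x i0‖ := by
    calc ‖c‖ * ‖x i0‖ = ‖(c • x) i0‖ := by simp
      _ = ‖∑ j, ((P i0 j : ℤ) : ℂ) * x j‖ := by
          rw [← hP]
          rfl
      _ ≤ ∑ j, ‖((P i0 j : ℤ) : ℂ)‖ * ‖x j‖ := by
          refine (norm_sum_le _ _).trans (le_of_eq ?_)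
          simp
      _ ≤ ∑ j, ‖((P i0 j : ℤ) : ℂ)‖ * ‖x i0‖ :=
          Finset.sum_le_sum fun j _ =>
            mul_le_mul_of_nonneg_left (hi0 j (Finset.mem_univ _)) (norm_nonneg _)
      _ = _ := by rw [Finset.sum_mul]
  have h3 : (∑ j, ‖((P i0 j : ℤ) : ℂ)‖) * ‖x i0‖ < (bound S ms : ℝ) * ‖x i0‖ :=
    mul_lt_mul_of_pos_right (hrowR i0) hpos
  have h4 : (bound S ms : ℝ) * ‖x i0‖ ≤ ‖c‖ * ‖x i0‖ := mul_le_mul_of_nonneg_right hb hpos.le
  linarith

/-- the vector of a list -/
def toVec (n : ℕ) (v : List ℤ) : Fin n → ℤ := fun i => nth v i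

/-- subtract a diagonal matrix -/
def subDiag : ℕ → List (List (ℕ × ℤ)) → List ℤ → List (List (ℕ × ℤ))
  | _, [], _ => []
  | _, _ :: _, [] => []
  | k, r :: A, e :: E => ((k, -e) :: r) :: subDiag (k + 1) A E

lemma row_subDiag (A : List (List (ℕ × ℤ))) (E : List ℤ) (h : A.length = E.length) (k i : ℕ)
    (hi : i < A.length) : row (subDiag k A E) i = (k + i, -nth E i) :: row A i := by
  induction A generalizing E k i with
  | nil => simp at hi
  | cons r A ih => cases E with
    | nil => simp at h
    | cons e E => cases i with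
      | zero => simp [subDiag, row, nth]
      | succ i =>
        simp only [subDiag, row, nth]
        rw [ih E (by simpa using h) (k + 1) i (by simpa using hi)]
        have : k + 1 + i = k + (i + 1) := by omega
        rw [this]

lemma toMat_subDiag (n : ℕ) (A : List (List (ℕ × ℤ))) (E : List ℤ) (hA : A.length = n)
    (hE : E.length = n) :
    toMat n (subDiag 0 A E) = toMat n A - Matrix.diagonal (toVec n E) := by
  ext i j
  simp only [toMat, Matrix.sub_apply]
  rw [row_subDiag A E (by omega) 0 i (by omega)]
  simp only [ent, zero_add]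
  by_cases hij : i = j
  · subst hij
    simp [toVec]
    ring
  · have : (i : ℕ) ≠ j := fun h => hij (Fin.ext h)
    simp [this, Matrix.diagonal_apply_ne _ hij]

/-- all entries are nonnegative -/
def nonnegOk : List (ℕ × ℤ) → Bool
  | [] => true
  | p :: r => decide (0 ≤ p.2) && nonnegOk r

lemma ent_nonneg (r : List (ℕ × ℤ)) (h : nonnegOk r = true) (j : ℕ) : 0 ≤ ent r j := by
  induction r with
  | nil => simp [ent]
  | cons p r ih =>
    simp only [nonnegOk, Bool.and_eq_true, decide_eq_true_eq] at h
    have h1 := ih h.2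
    simp only [ent]
    split_ifs
    · have := h.1; omega
    · omega

/-- the sum of the entries of a sparse row -/
def rowSum : List (ℕ × ℤ) → ℤ
  | [] => 0
  | p :: r => p.2 + rowSum r

lemma rowSum_eq (r : List (ℕ × ℤ)) : rowSum r = (r.map fun p => p.2 * 1).sum := by
  induction r with
  | nil => rfl
  | cons p r ih =>
    simp only [rowSum, List.map_cons, List.sum_cons, mul_one]
    rw [ih]
    simp

/-- the check that a sparse matrix is `S` times a row-stochastic one -/
def stochOk (n : ℕ) (S : ℤ) (A : List (List (ℕ × ℤ))) : Bool :=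
  decide (A.length = n) && A.all (idxOk n) && A.all nonnegOk &&
    A.all (fun r => decide (rowSum r = S))

lemma row_mem (A : List (List (ℕ × ℤ))) (i : ℕ) (hi : i < A.length) : row A i ∈ A := by
  induction A generalizing i with
  | nil => simp at hi
  | cons r A ih => cases i with
    | zero => simp [row]
    | succ i =>
      simp only [row]
      exact List.mem_cons_of_mem _ (ih i (by simpa using hi))

theorem stochOk_spec (n : ℕ) (S : ℤ) (A : List (List (ℕ × ℤ))) (h : stochOk n S A = true) :
    A.length = n ∧ (∀ i j, 0 ≤ toMat n A i j) ∧ ∀ i, ∑ j, toMat n A i j = S := by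
  simp only [stochOk, Bool.and_eq_true, decide_eq_true_eq, List.all_eq_true] at h
  obtain ⟨⟨⟨h1, h2⟩, h3⟩, h4⟩ := h
  refine ⟨h1, fun i j => ?_, fun i => ?_⟩
  · exact ent_nonneg _ (h3 _ (row_mem A i (by omega))) _
  · have hm := row_mem A i (by omega)
    have h5 := h4 _ hm
    rw [rowSum_eq, ← ent_sum n _ (h2 _ hm) fun _ => 1] at h5
    rw [← h5]
    refine Finset.sum_congr rfl fun j _ => ?_
    rw [mul_one]
    rfl

end Pool.Agent.Q186.RS
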