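import Pool.Agent.Q186.RS.Sym
import Pool.Agent.Q186.LS.Glue

/-!
# Short periodic geodesics from the fixed set of an isometric involution
-/

set_option autoImplicit false

open Set Topology

namespace Pool.Agent.Q186.RS

open Pool.Agent.Y489.GE Pool.Agent.Q186.LS

/-- The maps `f` and `g` from `Y` to `X` are homotopic by a homotopy all tracks of which are curves
of length at most `ℓ` (of speed at most `ℓ` on the unit interval). -/
def ShortlyHomotopic {Y X : Type} [TopologicalSpace Y] [MetricSpace X] (ℓ : ℝ) (f g : Y → X) :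
    Prop :=
  ∃ H : Y → ℝ → X, ContinuousOn (fun z : Y × ℝ => H z.1 z.2) (univ ×ˢ Icc (0 : ℝ) 1) ∧
    ∀ y, H y 0 = f y ∧ H y 1 = g y ∧
      ∀ s ∈ Icc (0 : ℝ) 1, ∀ t ∈ Icc (0 : ℝ) 1, dist (H y s) (H y t) ≤ ℓ * |s - t|

theorem main (X : Type) [MetricSpace X] [CompactSpace X] {r : ℝ} (hr : 0 < r) (hX : GeodSpace X)
    (hU : UniqGeod X r) (σ : X ≃ᵢ X) (hσ : σ * σ = 1) (Y : Type) [TopologicalSpace Y]
    (g k : C(Y, {x : X // σ x = x})) (hgk : ¬ g.Homotopic k) {ℓ : ℝ} (hℓ : 0 < ℓ)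
    (h : ShortlyHomotopic ℓ (fun y => (g y : X)) (fun y => (k y : X))) : ClosedGeod X (2 * ℓ) := by
  by_contra hno
  apply hgk
  obtain ⟨m, hm⟩ := Pool.Agent.Y467.GE.t_MG X r hr hX hU
  obtain ⟨H, hH, hH'⟩ := h
  have hσσ : ∀ x, σ (σ x) = x := fun x => by
    have := congrArg (fun τ : X ≃ᵢ X => τ x) hσ
    exact this
  obtain ⟨M, hM⟩ := exists_nat_gt (2 * ℓ / r)
  have hM0 : (0 : ℝ) < M := lt_trans (by positivity) hM
  have hM1 : 0 < M := by exact_mod_cast hM0
  have hMr : ℓ / M ≤ r / 2 := by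
    rw [div_lt_iff₀ hr] at hM
    rw [div_le_iff₀ hM0]
    linarith
  have : NeZero (2 * M) := ⟨by omega⟩
  set a : Y → ℝ → X := fun y t => H y (cl t) with ha
  set b : Y → ℝ → X := fun y t => σ (H y (cl t)) with hb
  have ha0 : ∀ y, ∀ t ≤ 0, a y t = g y := fun y t ht => by
    rw [ha]
    dsimp only
    rw [cl_of_le ht, (hH' y).1]
  have ha1 : ∀ y, ∀ t, 1 ≤ t → a y t = k y := fun y t ht => by
    rw [ha]
    dsimp only
    rw [cl_of_ge ht, (hH' y).2.1]
  have hb0 : ∀ y, ∀ t ≤ 0, b y t = g y := fun y t ht => by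
    rw [hb]
    dsimp only
    rw [cl_of_le ht, (hH' y).1, (g y).2]
  have hb1 : ∀ y, ∀ t, 1 ≤ t → b y t = k y := fun y t ht => by
    rw [hb]
    dsimp only
    rw [cl_of_ge ht, (hH' y).2.1, (k y).2]
  have haL : ∀ y s t, dist (a y s) (a y t) ≤ ℓ * |s - t| := fun y s t =>
    ((hH' y).2.2 _ (cl_mem s) _ (cl_mem t)).trans
      (mul_le_mul_of_nonneg_left (cl_dist s t) hℓ.le)
  have hbL : ∀ y s t, dist (b y s) (b y t) ≤ ℓ * |s - t| := fun y s t => by
    rw [hb]
    dsimp only
    rw [σ.isometry.dist_eq]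
    exact haL y s t
  have hac : Continuous fun z : Y × ℝ => a z.1 z.2 := by
    have h2 : Continuous fun z : Y × ℝ => ((z.1, cl z.2) : Y × ℝ) :=
      continuous_fst.prodMk (continuous_cl.comp continuous_snd)
    exact hH.comp_continuous h2 fun z => ⟨mem_univ _, cl_mem _⟩
  have hbc : Continuous fun z : Y × ℝ => b z.1 z.2 := σ.continuous.comp hac
  have hmem : ∀ y, poly (a y) (b y) M ∈ Pol X (2 * M) (ℓ / M) := fun y =>
    poly_mem hM1 (ha0 y) (hb0 y) (ha1 y) (hb1 y) (haL y) (hbL y)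
  have hup : ∀ y, ∀ i ≤ M, poly (a y) (b y) M ((i : ℕ) : ZMod (2 * M)) = a y ((i : ℝ) / M) :=
    fun y i hi => poly_up hM1 (ha0 y) (hb0 y) hi
  have hdn : ∀ y, ∀ i ≤ M, poly (a y) (b y) M (-((i : ℕ) : ZMod (2 * M))) = b y ((i : ℝ) / M) :=
    fun y i hi => poly_dn hM1 (ha0 y) (hb0 y) (ha1 y) (hb1 y) hi
  have hsy : ∀ y, poly (a y) (b y) M ∈ Sy σ (2 * M) := by
    intro y i
    have hi : i.val < 2 * M := ZMod.val_lt i
    rcases le_or_gt i.val M with h3 | h3
    · have e : i = ((i.val : ℕ) : ZMod (2 * M)) := (ZMod.natCast_zmod_val i).symm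
      rw [e, hup y _ h3, hdn y _ h3]
    · have e : i = -((2 * M - i.val : ℕ) : ZMod (2 * M)) := by
        rw [Nat.cast_sub hi.le, ZMod.natCast_self, zero_sub, neg_neg, ZMod.natCast_zmod_val]
      rw [e, neg_neg, hup y _ (by omega), hdn y _ (by omega)]
      exact (hσσ _).symm
  set v : Y → ↥(Pol X (2 * M) (ℓ / M) ∩ Sy σ (2 * M)) :=
    fun y => ⟨poly (a y) (b y) M, hmem y, hsy y⟩ with hv
  have hvc : Continuous v := by
    refine Continuous.subtype_mk (continuous_pi fun i => ?_) _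
    by_cases h : (i.val : ℝ) / M ≤ 1
    · simp only [poly, cc, if_pos h]
      exact hac.comp (continuous_id.prodMk continuous_const)
    · simp only [poly, cc, if_neg h]
      exact hbc.comp (continuous_id.prodMk continuous_const)
  obtain ⟨c, K, k1, k2, k3, k4, -⟩ := sy_contract (N := 2 * M) (δ := ℓ / M) hm hU (by linarith)
    σ.isometry (by positivity) hMr (by
      push_cast
      rw [mul_assoc, mul_div_cancel₀ _ hM0.ne']
      exact hno)
  have hfix0 : ∀ y s, σ (K (v y) s 0) = K (v y) s 0 := fun y s => by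
    have := k2 (v y) s 0
    rw [neg_zero] at this
    exact this.symm
  have hfixM : ∀ y s, σ (K (v y) s ((M : ℕ) : ZMod (2 * M))) = K (v y) s ((M : ℕ) : ZMod (2 * M)) :=
    fun y s => by
    have h5 := k2 (v y) s ((M : ℕ) : ZMod (2 * M))
    have e : -((M : ℕ) : ZMod (2 * M)) = ((M : ℕ) : ZMod (2 * M)) := by
      rw [neg_eq_iff_add_eq_zero, ← two_mul]
      have : ((2 * M : ℕ) : ZMod (2 * M)) = 0 := ZMod.natCast_self _
      push_cast at this
      exact this
    rw [e] at h5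
    exact h5.symm
  have hKc : ∀ j : ZMod (2 * M), Continuous fun z : Y × ℝ => K (v z.1) z.2 j := fun j =>
    (continuous_apply j).comp (k1.comp ((hvc.comp continuous_fst).prodMk continuous_snd))
  have hc : ∀ y, σ (c (v y)) = c (v y) := fun y => by
    have h6 := hfix0 y 1
    rw [k4 _ _ le_rfl] at h6
    exact h6
  have hcc : Continuous fun y => c (v y) := by
    have h6 := (hKc 0).comp (f := fun y : Y => ((y, (1 : ℝ)) : Y × ℝ))
      (continuous_id.prodMk continuous_const)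
    refine h6.congr fun y => ?_
    dsimp only [Function.comp_def]
    rw [k4 _ _ le_rfl]
  let c' : C(Y, {x : X // σ x = x}) := ⟨fun y => ⟨c (v y), hc y⟩, hcc.subtype_mk _⟩
  have s1 : g.Homotopic c' := by
    refine homotopic_of (fun y s => ⟨K (v y) s 0, hfix0 y s⟩) ((hKc 0).subtype_mk _).continuousOn
      ?_ ?_
    · intro y
      apply Subtype.ext
      dsimp only
      rw [k3 _ _ le_rfl]
      have h7 := hup y 0 (Nat.zero_le _)
      rw [Nat.cast_zero, Nat.cast_zero, zero_div, ha0 y 0 le_rfl] at h7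
      exact h7
    · intro y
      apply Subtype.ext
      dsimp only
      rw [k4 _ _ le_rfl]
      rfl
  have s2 : k.Homotopic c' := by
    refine homotopic_of (fun y s => ⟨K (v y) s ((M : ℕ) : ZMod (2 * M)), hfixM y s⟩)
      ((hKc _).subtype_mk _).continuousOn ?_ ?_
    · intro y
      apply Subtype.ext
      dsimp only
      rw [k3 _ _ le_rfl]
      have h7 := hup y M le_rfl
      rw [div_self hM0.ne', ha1 y 1 le_rfl] at h7
      exact h7
    · intro y
      apply Subtype.ext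
      dsimp only
      rw [k4 _ _ le_rfl]
      rfl
  exact s1.trans s2.symm

end Pool.Agent.Q186.RS
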