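import Pool.Agent.Y590.GE.BK
import Pool.Agent.Y812.GE.EN
import Pool.Agent.Y165.GE.CG

/-!
# Shortening of closed polygons which are symmetric under an isometry
-/

set_option autoImplicit false

open Set Topology

namespace Pool.Agent.Q186.RS

open Pool.Agent.Y489.GE Pool.Agent.Y590.GE

variable {X : Type} [MetricSpace X] {r ρ : ℝ} {m : X → X → ℝ → X}

theorem m_unique (hm : GMap X ρ m) (hU : UniqGeod X r) (hρ : ρ < r) {x y z : X} (hxy : dist x y ≤ ρ)
    {t : ℝ} (ht : t ∈ Icc (0 : ℝ) 1) (h1 : dist x z = t * dist x y)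
    (h2 : dist z y = (1 - t) * dist x y) : z = m x y t := by
  have e1 := hm.dist_left hxy ht
  have e2 := hm.dist_right hxy ht
  refine hU x y z (m x y t) (lt_of_le_of_lt hxy hρ) ?_ ?_ (by rw [h1, e1])
  · rw [h1, h2]
    ring
  · rw [e1, e2]
    ring

theorem m_swap (hm : GMap X ρ m) (hU : UniqGeod X r) (hρ : ρ < r) {x y : X} (hxy : dist x y ≤ ρ) :
    m y x (1 / 2) = m x y (1 / 2) := by
  have ht : (1 / 2 : ℝ) ∈ Icc (0 : ℝ) 1 := ⟨by norm_num, by norm_num⟩
  have hyx : dist y x ≤ ρ := by rwa [dist_comm]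
  refine m_unique hm hU hρ hxy ht ?_ ?_
  · rw [dist_comm, hm.dist_right hyx ht, dist_comm y x]
    norm_num
  · rw [dist_comm, hm.dist_left hyx ht, dist_comm y x]
    norm_num

theorem m_iso (hm : GMap X ρ m) (hU : UniqGeod X r) (hρ : ρ < r) {σ : X → X} (hσ : Isometry σ)
    {x y : X} (hxy : dist x y ≤ ρ) {t : ℝ} (ht : t ∈ Icc (0 : ℝ) 1) :
    σ (m x y t) = m (σ x) (σ y) t := by
  refine m_unique hm hU hρ (by rwa [hσ.dist_eq]) ht ?_ ?_
  · rw [hσ.dist_eq, hσ.dist_eq, hm.dist_left hxy ht]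
  · rw [hσ.dist_eq, hσ.dist_eq, hm.dist_right hxy ht]

/-- the symmetric closed polygons -/
def Sy (σ : X → X) (N : ℕ) : Set (ZMod N → X) := {x | ∀ i, x (-i) = σ (x i)}

/-- two steps of the motion, one forwards and one backwards -/
noncomputable def DD (m : X → X → ℝ → X) (N : ℕ) (x : ZMod N → X) : ZMod N → X :=
  fun i => ph m N (1 / 2) (ph m N (1 / 2) x) (i - 1)

theorem half_mem : (1 / 2 : ℝ) ∈ Icc (0 : ℝ) 1 := ⟨by norm_num, by norm_num⟩

theorem ph_pol (hm : GMap X ρ m) {N : ℕ} [NeZero N] {δ : ℝ} (hδ : δ ≤ ρ) {x : ZMod N → X}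
    (hx : x ∈ Pol X N δ) : ph m N (1 / 2) x ∈ Pol X N δ :=
  (Pool.Agent.Y812.GE.t_EN X ρ m hm N δ hδ x hx (1 / 2) half_mem).1

theorem ph_en (hm : GMap X ρ m) {N : ℕ} [NeZero N] {δ : ℝ} (hδ : δ ≤ ρ) {x : ZMod N → X}
    (hx : x ∈ Pol X N δ) : En N (ph m N (1 / 2) x) ≤ En N x :=
  (Pool.Agent.Y812.GE.t_EN X ρ m hm N δ hδ x hx (1 / 2) half_mem).2

theorem shift_pol {N : ℕ} {δ : ℝ} {x : ZMod N → X} (hx : x ∈ Pol X N δ) (j : ZMod N) :
    (fun i => x (i - j)) ∈ Pol X N δ := by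
  intro i
  have := hx (i - j)
  have e : i + 1 - j = i - j + 1 := by ring
  dsimp only
  rw [e]
  exact this

theorem shift_en {N : ℕ} [NeZero N] (x : ZMod N → X) (j : ZMod N) :
    En N (fun i => x (i - j)) = En N x := by
  unfold En
  have h := Equiv.sum_comp (Equiv.subRight j) (fun i => dist (x i) (x (i + 1)) ^ 2)
  rw [← h]
  refine Finset.sum_congr rfl fun i _ => ?_
  have e : i + 1 - j = i - j + 1 := by ring
  change dist (x (i - j)) (x (i + 1 - j)) ^ 2 = dist (x (i - j)) (x (i - j + 1)) ^ 2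
  rw [e]

theorem DD_pol (hm : GMap X ρ m) {N : ℕ} [NeZero N] {δ : ℝ} (hδ : δ ≤ ρ) {x : ZMod N → X}
    (hx : x ∈ Pol X N δ) : DD m N x ∈ Pol X N δ :=
  shift_pol (ph_pol hm hδ (ph_pol hm hδ hx)) 1

theorem DD_en (hm : GMap X ρ m) {N : ℕ} [NeZero N] {δ : ℝ} (hδ : δ ≤ ρ) {x : ZMod N → X}
    (hx : x ∈ Pol X N δ) : En N (DD m N x) ≤ En N (ph m N (1 / 2) x) := by
  have h := shift_en (ph m N (1 / 2) (ph m N (1 / 2) x)) 1
  unfold DD
  rw [h]
  exact ph_en hm hδ (ph_pol hm hδ hx)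

theorem DD_sy (hm : GMap X ρ m) (hU : UniqGeod X r) (hρ : ρ < r) {σ : X → X} (hσ : Isometry σ)
    {N : ℕ} [NeZero N] {δ : ℝ} (hδ : δ ≤ ρ) {x : ZMod N → X} (hx : x ∈ Pol X N δ)
    (hs : x ∈ Sy σ N) : DD m N x ∈ Sy σ N := by
  have hy := ph_pol hm hδ hx
  set y := ph m N (1 / 2) x with hyd
  have h1 : ∀ i, y (-i - 1) = σ (y i) := by
    intro i
    have e0 : y (-i - 1) = m (x (-i - 1)) (x (-i - 1 + 1)) (1 / 2) := rfl
    have e1 : y i = m (x i) (x (i + 1)) (1 / 2) := rfl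
    have e2 : x (-i - 1) = σ (x (i + 1)) := by
      rw [← hs (i + 1)]
      congr 1
      ring
    have hd : dist (x i) (x (i + 1)) ≤ ρ := (hx i).trans hδ
    rw [e0, e1, sub_add_cancel, e2, hs i, ← m_iso hm hU hρ hσ (by rwa [dist_comm]) half_mem,
      m_swap hm hU hρ hd]
  intro i
  have e0 : DD m N x (-i) = m (y (-i - 1)) (y (-i - 1 + 1)) (1 / 2) := rfl
  have e1 : DD m N x i = m (y (i - 1)) (y (i - 1 + 1)) (1 / 2) := rfl
  have e2 : y (-i) = σ (y (i - 1)) := by
    rw [← h1 (i - 1)]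
    congr 1
    ring
  have hd : dist (y (i - 1)) (y i) ≤ ρ := by
    have := (hy (i - 1)).trans hδ
    rwa [sub_add_cancel] at this
  rw [e0, e1, sub_add_cancel, sub_add_cancel, h1 i, e2,
    ← m_iso hm hU hρ hσ (by rwa [dist_comm]) half_mem, m_swap hm hU hρ hd]

theorem DD_near (hm : GMap X ρ m) {N : ℕ} [NeZero N] {δ : ℝ} (hδ : δ ≤ ρ) {x : ZMod N → X}
    (hx : x ∈ Pol X N δ) (i : ZMod N) : dist (x i) (DD m N x i) ≤ δ := by
  have hy := ph_pol hm hδ hx
  set y := ph m N (1 / 2) x with hyd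
  have hδ0 : 0 ≤ δ := dist_nonneg.trans (hx 0)
  have e0 : y i = m (x i) (x (i + 1)) (1 / 2) := rfl
  have e1 : DD m N x i = m (y (i - 1)) (y (i - 1 + 1)) (1 / 2) := rfl
  have hd : dist (y (i - 1)) (y i) ≤ δ := by
    have := hy (i - 1)
    rwa [sub_add_cancel] at this
  have h1 : dist (x i) (y i) ≤ 1 / 2 * δ := by
    rw [e0, hm.dist_left ((hx i).trans hδ) half_mem]
    exact mul_le_mul_of_nonneg_left (hx i) (by norm_num)
  have h2 : dist (DD m N x i) (y i) ≤ (1 - 1 / 2) * δ := by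
    rw [e1, sub_add_cancel, hm.dist_right (hd.trans hδ) half_mem]
    exact mul_le_mul_of_nonneg_left hd (by norm_num)
  have h3 := dist_triangle_right (x i) (DD m N x i) (y i)
  linarith

theorem DD_cont (hm : GMap X ρ m) {N : ℕ} [NeZero N] {δ : ℝ} (hδ : δ ≤ ρ) :
    ContinuousOn (DD m N) (Pol X N δ) := by
  have h1 : ContinuousOn (fun x : ZMod N → X => ph m N (1 / 2) x) (Pol X N δ) :=
    ph_cont hm N hδ continuousOn_id continuousOn_const (fun z hz => hz) (fun _ _ => half_mem)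
  have h2 : ContinuousOn (fun x : ZMod N → X => ph m N (1 / 2) (ph m N (1 / 2) x)) (Pol X N δ) :=
    ph_cont hm N hδ h1 continuousOn_const (fun z hz => ph_pol hm hδ hz) (fun _ _ => half_mem)
  rw [continuousOn_pi]
  intro i
  exact (continuous_apply (i - 1)).comp_continuousOn h2

/-- the symmetric polygons are contracted to constant polygons through symmetric polygons -/
theorem sy_contract [CompactSpace X] (hm : GMap X ρ m) (hU : UniqGeod X r) (hρ : ρ < r) {σ : X → X}
    (hσ : Isometry σ) {N : ℕ} [NeZero N] {δ : ℝ} (hδ0 : 0 < δ) (hδ : δ ≤ ρ)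
    (hno : ¬ ClosedGeod X (N * δ)) :
    ∃ c : ↥(Pol X N δ ∩ Sy σ N) → X, Htp (Y := ↥(Pol X N δ ∩ Sy σ N)) (W := ZMod N → X) (Sy σ N) ∅
      (fun x => x.1) (fun x _ => c x) := by
  have hN : (0 : ℝ) < N := by exact_mod_cast Nat.pos_of_ne_zero (NeZero.ne N)
  set e : ℝ := δ / (2 * N) with he
  have he0 : 0 < e := by positivity
  -- uniform decrease
  have hdec : ∃ η : ℝ, 0 < η ∧ ∀ x ∈ Pol X N δ, e ^ 2 ≤ En N x →
      En N (ph m N (1 / 2) x) ≤ En N x - η := by
    have hc1 : ContinuousOn (fun x : ZMod N → X => ph m N (1 / 2) x) (Pol X N δ) :=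
      ph_cont hm N hδ continuousOn_id continuousOn_const (fun z hz => hz) (fun _ _ => half_mem)
    have hc : ContinuousOn (fun x : ZMod N → X => En N x - En N (ph m N (1 / 2) x))
        (Pol X N δ) :=
      (En_cont N).continuousOn.sub ((En_cont N).comp_continuousOn hc1)
    set K : Set (ZMod N → X) := Pol X N δ ∩ {x | e ^ 2 ≤ En N x} with hK
    have hKc : IsCompact K :=
      (Pol_compact N δ).inter_right (isClosed_le continuous_const (En_cont N))
    rcases K.eq_empty_or_nonempty with h0 | h0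
    · refine ⟨1, one_pos, fun x hx hx2 => ?_⟩
      have : x ∈ K := ⟨hx, hx2⟩
      rw [h0] at this
      exact this.elim
    · obtain ⟨x0, hx0, hmin⟩ := hKc.exists_isMinOn h0 (hc.mono inter_subset_left)
      refine ⟨En N x0 - En N (ph m N (1 / 2) x0), ?_, fun x hx hx2 => ?_⟩
      · have h1 := ph_en hm hδ hx0.1
        refine sub_pos.2 (lt_of_le_of_ne h1 fun h2 => hno ?_)
        have hpos : 0 < En N x0 := lt_of_lt_of_le (by positivity) hx0.2
        exact Pool.Agent.Y165.GE.t_CG X ρ m hm N δ hδ x0 hx0.1 h2 hpos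
      · have h3 : En N x0 - En N (ph m N (1 / 2) x0) ≤ En N x - En N (ph m N (1 / 2) x) :=
          hmin (⟨hx, hx2⟩ : x ∈ K)
        linarith
  obtain ⟨η, hη, hdec⟩ := hdec
  -- the shortening map
  let F : ↥(Pol X N δ ∩ Sy σ N) → ↥(Pol X N δ ∩ Sy σ N) := fun x =>
    ⟨DD m N x.1, DD_pol hm hδ x.2.1, DD_sy hm hU hρ hσ hδ x.2.1 x.2.2⟩
  have hFc : Continuous F := by
    refine Continuous.subtype_mk ?_ _
    exact (DD_cont hm hδ).comp_continuous continuous_subtype_val fun x => x.2.1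
  have hFen : ∀ x, En N (F x).1 ≤ En N (ph m N (1 / 2) x.1) := fun x => DD_en hm hδ x.2.1
  have hFen' : ∀ x, En N (F x).1 ≤ En N x.1 := fun x => (hFen x).trans (ph_en hm hδ x.2.1)
  have hFken : ∀ k : ℕ, ∀ x : ↥(Pol X N δ ∩ Sy σ N), En N (F^[k] x).1 < e ^ 2 ∨
      En N (F^[k] x).1 ≤ En N x.1 - k * η := by
    intro k x
    induction k with
    | zero => right; simp
    | succ k ih =>
      rw [Function.iterate_succ_apply']
      rcases ih with h | h
      · left; exact (hFen' _).trans_lt h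
      · rcases lt_or_ge (En N (F^[k] x).1) (e ^ 2) with h2 | h2
        · left; exact (hFen' _).trans_lt h2
        · right
          have h3 := hdec (F^[k] x).1 (F^[k] x).2.1 h2
          have h4 := hFen (F^[k] x)
          push_cast
          linarith
  obtain ⟨k, hk⟩ := exists_nat_gt (N * δ ^ 2 / η)
  have hkk : ∀ x : ↥(Pol X N δ ∩ Sy σ N), En N (F^[k] x).1 < e ^ 2 := by
    intro x
    rcases hFken k x with h | h
    · exact h
    · have h1 := En_le N x.2.1
      have h2 := En_nonneg N (F^[k] x).1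
      rw [div_lt_iff₀ hη] at hk
      exfalso
      linarith
  -- the homotopy of one step
  have hstep : Htp (Y := ↥(Pol X N δ ∩ Sy σ N)) (W := ZMod N → X) (Sy σ N) ∅
      (fun x => x.1) (fun x => (F x).1) := by
    have hn : ∀ x : ↥(Pol X N δ ∩ Sy σ N), ∀ i, dist (x.1 i) ((F x).1 i) ≤ ρ := fun x i =>
      (DD_near hm hδ x.2.1 i).trans hδ
    refine Htp.of_clamp (fun y s i => m (y.1 i) ((F y).1 i) s) ?_ ?_ ?_ ?_ ?_
    · rw [continuousOn_pi]
      intro i
      have h1 : Continuous (fun z : ↥(Pol X N δ ∩ Sy σ N) × ℝ =>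
          ((z.1.1 i, (F z.1).1 i, z.2) : X × X × ℝ)) := by
        refine Continuous.prodMk ?_ (Continuous.prodMk ?_ continuous_snd)
        · exact (continuous_apply i).comp (continuous_subtype_val.comp continuous_fst)
        · exact (continuous_apply i).comp (continuous_subtype_val.comp (hFc.comp continuous_fst))
      exact hm.cont.comp h1.continuousOn (fun z hz => ⟨hn z.1 i, hz⟩)
    · intro y s hs i
      dsimp only
      rw [y.2.2 i, (F y).2.2 i, m_iso hm hU hρ hσ (hn y i) hs]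
    · intro y
      funext i
      exact hm.zero _ _ (hn y i)
    · intro y
      funext i
      exact hm.one _ _ (hn y i)
    · intro y hy
      exact absurd hy (Set.notMem_empty _)
  have hiter : ∀ k : ℕ, Htp (Y := ↥(Pol X N δ ∩ Sy σ N)) (W := ZMod N → X) (Sy σ N) ∅
      (fun x => x.1) (fun x => (F^[k] x).1) := by
    intro k
    induction k with
    | zero =>
      refine ⟨fun y _ => y.1, ?_, ?_, ?_, ?_, ?_⟩
      · exact continuous_subtype_val.comp continuous_fst
      · exact fun y _ => y.2.2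
      · exact fun _ _ _ => rfl
      · exact fun _ _ _ => rfl
      · exact fun _ _ _ => rfl
    | succ k ih =>
      have h1 := hstep.precomp (Z' := (∅ : Set ↥(Pol X N δ ∩ Sy σ N))) (F^[k])
        (hFc.iterate k) (fun y hy => absurd hy (Set.notMem_empty _))
      have h2 := ih.trans h1
      have h3 : (fun x : ↥(Pol X N δ ∩ Sy σ N) => (F^[k + 1] x).1) = fun x => (F (F^[k] x)).1 := by
        funext x
        rw [Function.iterate_succ_apply']
      rw [h3]
      exact h2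
  -- the cone
  have hfar : ∀ y : ↥(Pol X N δ ∩ Sy σ N), ∀ i, dist ((F^[k] y).1 i) ((F^[k] y).1 0) ≤ ρ := by
    intro y i
    have h1 := far_le N he0 (hkk y) i
    have h2 : (N : ℝ) * e = δ / 2 := by
      rw [he]
      field_simp
    rw [h2] at h1
    linarith
  refine ⟨fun x => (F^[k] x).1 0, (hiter k).trans ?_⟩
  refine Htp.of_clamp (fun y s i => m ((F^[k] y).1 i) ((F^[k] y).1 0) s) ?_ ?_ ?_ ?_ ?_
  · rw [continuousOn_pi]
    intro i
    have hc : Continuous (fun z : ↥(Pol X N δ ∩ Sy σ N) × ℝ => (F^[k] z.1).1) :=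
      continuous_subtype_val.comp ((hFc.iterate k).comp continuous_fst)
    have h1 : Continuous (fun z : ↥(Pol X N δ ∩ Sy σ N) × ℝ =>
        (((F^[k] z.1).1 i, (F^[k] z.1).1 0, z.2) : X × X × ℝ)) := by
      refine Continuous.prodMk ?_ (Continuous.prodMk ?_ continuous_snd)
      · exact (continuous_apply i).comp hc
      · exact (continuous_apply 0).comp hc
    exact hm.cont.comp h1.continuousOn (fun z hz => ⟨hfar z.1 i, hz⟩)
  · intro y s hs i
    dsimp only
    have h0 : (F^[k] y).1 0 = σ ((F^[k] y).1 0) := by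
      have := (F^[k] y).2.2 0
      rwa [neg_zero] at this
    rw [m_iso hm hU hρ hσ (hfar y i) hs, ← h0, (F^[k] y).2.2 i]
  · intro y
    funext i
    exact hm.zero _ _ (hfar y i)
  · intro y
    funext i
    exact hm.one _ _ (hfar y i)
  · intro y hy
    exact absurd hy (Set.notMem_empty _)

end Pool.Agent.Q186.RS
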